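import Pool.Agent.Helper19.HO.Defs

/-!
# HO-7: almost every projection has no zero on the image
-/

open MeasureTheory Set Metric Filter Module
open scoped NNReal Topology RealInnerProductSpace ENNReal Real ContDiff Manifold

namespace Pool.Agent.Helper19.HO

section P7

variable {E H ι : Type*} [NormedAddCommGroup E] [InnerProductSpace ℝ E] [NormedAddCommGroup H]
  [InnerProductSpace ℝ H] [Fintype ι]

theorem act_apply (b : OrthonormalBasis ι ℝ H) (p : PiLp 2 (fun _ : ι => E)) (h : H) :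
    act b p h = ∑ j, ⟪b j, h⟫ • p j := by
  simp [act]

open Classical in
/-- Replace the `j`-th entry by the solution of `∑ ⟪b i, g (q j)⟫ • p i = 0`. -/
noncomputable def P7.Psj (b : OrthonormalBasis ι ℝ H) (g : E → H) (j : ι)
    (q : PiLp 2 (fun _ : ι => E)) : PiLp 2 (fun _ : ι => E) :=
  WithLp.toLp 2 (fun i => if i = j then
    -∑ k ∈ Finset.univ.erase j, (⟪b k, g (q j)⟫ / ⟪b j, g (q j)⟫) • q k else q i)

theorem P7.Psj_same (b : OrthonormalBasis ι ℝ H) (g : E → H) (j : ι)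
    (q : PiLp 2 (fun _ : ι => E)) [DecidableEq ι] :
    P7.Psj b g j q j = -∑ k ∈ Finset.univ.erase j, (⟪b k, g (q j)⟫ / ⟪b j, g (q j)⟫) • q k := by
  classical
  simp only [P7.Psj, PiLp.toLp_apply, if_true]
  congr 1
  apply Finset.sum_congr
  · ext k; simp
  · intros; rfl

theorem P7.Psj_ne (b : OrthonormalBasis ι ℝ H) (g : E → H) (j : ι)
    (q : PiLp 2 (fun _ : ι => E)) {i : ι} (hi : i ≠ j) :
    P7.Psj b g j q i = q i := by
  simp [P7.Psj, hi]

theorem P7.differentiableAt_Psj (b : OrthonormalBasis ι ℝ H) {g : E → H}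
    (hg : ContDiffOn ℝ 1 g {0}ᶜ) (j : ι) {q : PiLp 2 (fun _ : ι => E)} (hq : q j ≠ 0)
    (hb : ⟪b j, g (q j)⟫ ≠ 0) : DifferentiableAt ℝ (P7.Psj b g j) q := by
  classical
  rw [differentiableAt_piLp]
  intro i
  have happ : ∀ k : ι, DifferentiableAt ℝ (fun q : PiLp 2 (fun _ : ι => E) => q k) q := fun k =>
    (PiLp.hasStrictFDerivAt_apply (𝕜 := ℝ) 2 q k).hasFDerivAt.differentiableAt
  by_cases hi : i = j
  · subst hi
    have hfun : (fun x : PiLp 2 (fun _ : ι => E) => P7.Psj b g i x i)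
        = fun x => -∑ k ∈ Finset.univ.erase i, (⟪b k, g (x i)⟫ / ⟪b i, g (x i)⟫) • x k := by
      funext x
      exact P7.Psj_same b g i x
    rw [hfun]
    have hgd : DifferentiableAt ℝ g (q i) :=
      ((hg.contDiffAt (isOpen_compl_singleton.mem_nhds hq)).differentiableAt (by norm_num))
    have hgq : DifferentiableAt ℝ (fun x : PiLp 2 (fun _ : ι => E) => g (x i)) q :=
      DifferentiableAt.comp q hgd (happ i)
    have hin : ∀ k : ι, DifferentiableAt ℝ
        (fun x : PiLp 2 (fun _ : ι => E) => ⟪b k, g (x i)⟫) q := fun k =>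
      (differentiableAt_const _).inner ℝ hgq
    apply DifferentiableAt.neg
    apply DifferentiableAt.fun_sum
    intro k _
    have hdiv : DifferentiableAt ℝ
        (fun x : PiLp 2 (fun _ : ι => E) => ⟪b k, g (x i)⟫ / ⟪b i, g (x i)⟫) q := by
      simp only [div_eq_mul_inv]
      exact (hin k).fun_mul ((hin i).fun_inv hb)
    exact hdiv.smul (happ k)
  · have hfun : (fun x : PiLp 2 (fun _ : ι => E) => P7.Psj b g j x i) = fun x => x i := by
      funext x
      exact P7.Psj_ne b g j x hi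
    rw [hfun]
    exact happ i

theorem P7.Psj_add_single (b : OrthonormalBasis ι ℝ H) {g : E → H}
    (hom : ∀ (y : E) (t : ℝ), 0 < t → g (t • y) = t • g y) (j : ι)
    [DecidableEq ι] (q : PiLp 2 (fun _ : ι => E)) {t : ℝ} (ht : -1 < t) :
    P7.Psj b g j (q + t • (PiLp.single 2 j (q j) : PiLp 2 (fun _ : ι => E)))
      = P7.Psj b g j q := by
  have h1 : (0 : ℝ) < 1 + t := by linarith
  have hj : (q + t • (PiLp.single 2 j (q j) : PiLp 2 (fun _ : ι => E))) j = (1 + t) • q j := by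
    simp [PiLp.single_eq_same, add_smul]
  have hk : ∀ k, k ≠ j →
      (q + t • (PiLp.single 2 j (q j) : PiLp 2 (fun _ : ι => E))) k = q k := by
    intro k hk
    simp [hk]
  ext i
  by_cases hi : i = j
  · subst hi
    rw [P7.Psj_same, P7.Psj_same]
    congr 1
    apply Finset.sum_congr rfl
    intro k hk'
    rw [hk k (Finset.ne_of_mem_erase hk'), hj, hom _ _ h1, inner_smul_right, inner_smul_right,
      mul_div_mul_left _ _ h1.ne']
  · rw [P7.Psj_ne _ _ _ _ hi, P7.Psj_ne _ _ _ _ hi, hk i hi]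

theorem P7.det_fderiv_eq_zero (b : OrthonormalBasis ι ℝ H) {g : E → H} [FiniteDimensional ℝ E]
    (hg : ContDiffOn ℝ 1 g {0}ᶜ)
    (hom : ∀ (y : E) (t : ℝ), 0 < t → g (t • y) = t • g y) (j : ι)
    {q : PiLp 2 (fun _ : ι => E)} (hq : q j ≠ 0) (hb : ⟪b j, g (q j)⟫ ≠ 0) :
    (fderiv ℝ (P7.Psj b g j) q).det = 0 := by
  classical
  set v : PiLp 2 (fun _ : ι => E) := PiLp.single 2 j (q j) with hv
  have hv0 : v ≠ 0 := by
    intro h
    have := congrArg (fun x : PiLp 2 (fun _ : ι => E) => x j) h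
    simp only [hv, PiLp.single_eq_same, PiLp.zero_apply] at this
    exact hq this
  have hd : HasFDerivAt (P7.Psj b g j) (fderiv ℝ (P7.Psj b g j) q) q :=
    (P7.differentiableAt_Psj b hg j hq hb).hasFDerivAt
  have hl : HasDerivAt (fun t : ℝ => q + t • v) v 0 := by
    have := ((hasDerivAt_id (0 : ℝ)).smul_const v).const_add q
    simpa using this
  have hd' : HasFDerivAt (P7.Psj b g j) (fderiv ℝ (P7.Psj b g j) q) (q + (0 : ℝ) • v) := by
    simpa using hd
  have hcomp : HasDerivAt (fun t : ℝ => P7.Psj b g j (q + t • v))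
      (fderiv ℝ (P7.Psj b g j) q v) 0 :=
    hd'.comp_hasDerivAt (f := fun t : ℝ => q + t • v) (0 : ℝ) hl
  have hconst : HasDerivAt (fun t : ℝ => P7.Psj b g j (q + t • v)) 0 0 := by
    have hc : HasDerivAt (fun _ : ℝ => P7.Psj b g j q) 0 0 := hasDerivAt_const _ _
    refine hc.congr_of_eventuallyEq ?_
    filter_upwards [Ioi_mem_nhds (show (-1 : ℝ) < 0 by norm_num)] with t ht
    exact P7.Psj_add_single b hom j q ht
  have hzero : fderiv ℝ (P7.Psj b g j) q v = 0 := hcomp.unique hconst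
  have hker : LinearMap.ker (fderiv ℝ (P7.Psj b g j) q : PiLp 2 (fun _ : ι => E) →ₗ[ℝ]
      PiLp 2 (fun _ : ι => E)) ≠ ⊥ := by
    intro h
    have hm : v ∈ LinearMap.ker (fderiv ℝ (P7.Psj b g j) q : PiLp 2 (fun _ : ι => E) →ₗ[ℝ]
      PiLp 2 (fun _ : ι => E)) := by
      rw [LinearMap.mem_ker]
      exact hzero
    rw [h, Submodule.mem_bot] at hm
    exact hv0 hm
  exact LinearMap.det_eq_zero_iff_ker_ne_bot.2 hker

/-- HO-7 -/
theorem ae_act_ne_zero [FiniteDimensional ℝ E] [FiniteDimensional ℝ H]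
    [MeasurableSpace E] [BorelSpace E]
    (b : OrthonormalBasis ι ℝ H) {g : E → H} (hg : ContDiffOn ℝ 1 g {0}ᶜ)
    (hom : ∀ (y : E) (t : ℝ), 0 < t → g (t • y) = t • g y) (h0 : ∀ y, y ≠ 0 → g y ≠ 0) :
    ∀ᵐ p : PiLp 2 (fun _ : ι => E), ∀ y, y ≠ 0 → act b p (g y) ≠ 0 := by
  classical
  have hnull : ∀ j : ι, volume (P7.Psj b g j ''
      {q : PiLp 2 (fun _ : ι => E) | q j ≠ 0 ∧ ⟪b j, g (q j)⟫ ≠ 0}) = 0 := by
    intro j
    apply addHaar_image_eq_zero_of_det_fderivWithin_eq_zero volume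
      (f' := fun q => fderiv ℝ (P7.Psj b g j) q)
    · intro q hq
      exact (P7.differentiableAt_Psj b hg j hq.1 hq.2).hasFDerivAt.hasFDerivWithinAt
    · intro q hq
      exact P7.det_fderiv_eq_zero b hg hom j hq.1 hq.2
  have hU : volume (⋃ j : ι, P7.Psj b g j ''
      {q : PiLp 2 (fun _ : ι => E) | q j ≠ 0 ∧ ⟪b j, g (q j)⟫ ≠ 0}) = 0 :=
    measure_iUnion_null hnull
  rw [ae_iff]
  refine measure_mono_null ?_ hU
  intro p hp
  simp only [Set.mem_ofPred_eq, not_forall, not_not] at hp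
  obtain ⟨y, hy, hp⟩ := hp
  rw [act_apply] at hp
  obtain ⟨j, hj⟩ : ∃ j, ⟪b j, g y⟫ ≠ 0 := by
    by_contra hcon
    push Not at hcon
    apply h0 y hy
    rw [← b.sum_repr (g y)]
    apply Finset.sum_eq_zero
    intro i _
    rw [b.repr_apply_apply, hcon i, zero_smul]
  rw [Set.mem_iUnion]
  refine ⟨j, ?_⟩
  set q : PiLp 2 (fun _ : ι => E) := WithLp.toLp 2 (fun i => if i = j then y else p i) with hqd
  have hqj : q j = y := by simp [hqd]
  have hqi : ∀ i, i ≠ j → q i = p i := by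
    intro i hi
    simp [hqd, hi]
  refine ⟨q, ⟨by rw [hqj]; exact hy, by rw [hqj]; exact hj⟩, ?_⟩
  ext i
  by_cases hi : i = j
  · subst hi
    rw [P7.Psj_same, hqj]
    rw [← Finset.add_sum_erase _ _ (Finset.mem_univ i)] at hp
    have h1 : ∑ k ∈ Finset.univ.erase i, (⟪b k, g y⟫ / ⟪b i, g y⟫) • q k
        = (⟪b i, g y⟫)⁻¹ • ∑ k ∈ Finset.univ.erase i, ⟪b k, g y⟫ • p k := by
      rw [Finset.smul_sum]
      apply Finset.sum_congr rfl
      intro k hk
      rw [hqi k (Finset.ne_of_mem_erase hk), smul_smul, div_eq_inv_mul]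
    have h2 : ∑ k ∈ Finset.univ.erase i, ⟪b k, g y⟫ • p k = -(⟪b i, g y⟫ • p i) := by
      rw [eq_neg_iff_add_eq_zero, add_comm]
      exact hp
    rw [h1, h2, smul_neg, neg_neg, smul_smul, inv_mul_cancel₀ hj, one_smul]
  · rw [P7.Psj_ne _ _ _ _ hi, hqi i hi]

end P7

end Pool.Agent.Helper19.HO
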